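import Pool.Agent.Helper52.SG.Goals
import Mathlib

/-!
# Project SG (MP_0a002a_al): packet FIT
-/

set_option autoImplicit false

namespace Pool.Agent.Helper13.SG.FIT

open Subgroup Pool.H83Shunkov Pool.Agent.Helper29.SH Pool.Agent.Helper52.SG

theorem cen_fi {E : Type} [Group E] (h : {t : E | IsOfFinOrder t}.Finite) (t : E)
    (ht : IsOfFinOrder t) : (centralizer ({t} : Set E)).FiniteIndex := by
  rw [finiteIndex_iff_finite_quotient]
  have hf : Finite {t : E | IsOfFinOrder t} := h.to_subtype
  have hc : ∀ g : E, IsOfFinOrder (g * t * g⁻¹) := by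
    intro g
    have := (MulAut.conj g).toMonoidHom.isOfFinOrder ht
    exact this
  refine Finite.of_injective (β := {t : E | IsOfFinOrder t})
    (fun q => ⟨q.out * t * q.out⁻¹, hc q.out⟩) ?_
  intro q r hqr
  have h1 : q.out * t * q.out⁻¹ = r.out * t * r.out⁻¹ := congrArg Subtype.val hqr
  have h2 : q.out⁻¹ * r.out ∈ centralizer ({t} : Set E) := by
    rw [mem_centralizer_singleton_iff]
    have h3 : q.out⁻¹ * r.out * t = q.out⁻¹ * (r.out * t * r.out⁻¹) * r.out := by group
    rw [h3, ← h1]
    group
  have h4 := QuotientGroup.eq.2 h2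
  rwa [QuotientGroup.out_eq', QuotientGroup.out_eq'] at h4

theorem mem_rad {E : Type} [Group E] (h : {t : E | IsOfFinOrder t}.Finite) (t : E)
    (ht : IsOfFinOrder t) : t ∈ lfRad E := by
  refine mem_lfRad_of_comm ht (cen_fi h t ht) ?_
  intro x hx
  exact mem_centralizer_singleton_iff.1 hx

theorem rad_fin {E : Type} [Group E] {t : E} (ht : t ∈ lfRad E) : IsOfFinOrder t := by
  have h1 := mem_lfRad.1 ht {t} (by
    rw [Finset.coe_singleton]
    exact subset_normalClosure)
  exact isOfFinOrder_of_mem_finite h1 (subset_closure (by simp))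

theorem good_of_fin {E : Type} [Group E] (h : {t : E | IsOfFinOrder t}.Finite) : Good E := by
  have h1 : Finite (lfRad E) := by
    refine (h.subset ?_ : (lfRad E : Set E).Finite).to_subtype
    intro t ht
    exact rad_fin ht
  refine good_extension E (lfRad E) (good_finite _) (good_torsionFree _ ?_)
  intro g hg
  obtain ⟨b, rfl⟩ := QuotientGroup.mk_surjective g
  obtain ⟨n, hn, h2⟩ := isOfFinOrder_iff_pow_eq_one.1 hg
  rw [← QuotientGroup.mk_pow, QuotientGroup.eq_one_iff] at h2
  rw [QuotientGroup.eq_one_iff]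
  refine mem_rad h b ?_
  obtain ⟨m, hm, h'⟩ := isOfFinOrder_iff_pow_eq_one.1 (rad_fin h2)
  rw [← pow_mul] at h'
  exact isOfFinOrder_iff_pow_eq_one.2 ⟨n * m, Nat.mul_pos hn hm, h'⟩

/-- packet FIT -/
theorem t : S_FIT := by
  intro N _ hS C hC hT
  have hC0 : C.normalCore.FiniteIndex := inferInstance
  have hfin0 : {t : C.normalCore | IsOfFinOrder t}.Finite := by
    refine Set.Finite.of_finite_image (f := C.normalCore.subtype) (hT.subset ?_)
      C.normalCore.subtype_injective.injOn
    rintro _ ⟨t, ht, rfl⟩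
    exact ⟨C.normalCore_le t.2, C.normalCore.subtype.isOfFinOrder ht⟩
  have hfq : Finite (N ⧸ C.normalCore) := finiteIndex_iff_finite_quotient.1 hC0
  have hgood : Good N :=
    good_extension N C.normalCore (good_of_fin hfin0) (good_finite _)
  have hfin : {t : N | IsOfFinOrder t}.Finite := by
    by_contra hinf
    have h1 := (shunkov_conclusion hgood.X hS hinf).1
    apply h1
    have h2 : Finite (C.normalCore.subgroupOf (lfRad N)) := by
      have h3 : Finite {t : C.normalCore | IsOfFinOrder t} := hfin0.to_subtype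
      refine Finite.of_injective (β := {t : C.normalCore | IsOfFinOrder t})
        (fun x => ⟨⟨x.1.1, mem_subgroupOf.1 x.2⟩, ?_⟩) ?_
      · have h4 := rad_fin x.1.2
        rw [isOfFinOrder_iff_pow_eq_one] at h4
        obtain ⟨n, hn, h5⟩ := h4
        exact isOfFinOrder_iff_pow_eq_one.2 ⟨n, hn, Subtype.ext h5⟩
      · intro x y hxy
        have h5 : x.1.1 = y.1.1 := congrArg (fun z => z.1.1) hxy
        exact Subtype.ext (Subtype.ext h5)
    have h3 : Finite (lfRad N ⧸ C.normalCore.subgroupOf (lfRad N)) :=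
      finiteIndex_iff_finite_quotient.1 inferInstance
    have h4 : Finite (lfRad N) := Finite.of_subgroup_quotient (C.normalCore.subgroupOf (lfRad N))
    exact Set.toFinite _
  exact ⟨hfin, fun t ht => mem_rad hfin t ht⟩

end Pool.Agent.Helper13.SG.FIT
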