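import Pool.Agent.Helper18.SG.Goals2

/-!
# Packet SG2-T3 (project of helper18, MP_d3128a_ag): the profile inequalities
-/

set_option autoImplicit false

namespace Pool.Agent.Helper13.SG

open Finset Pool.Agent.Helper18.SG

lemma mono_step {R : ℕ} {ℓ : ℕ → ℕ} (h : ∀ y, y + 1 < R → ℓ y ≤ ℓ (y + 1)) (y : ℕ) :
    ∀ j, y + j < R → ℓ y ≤ ℓ (y + j) := by
  intro j
  induction j with
  | zero => intro _; exact le_rfl
  | succ j ih =>
    intro hj
    exact (ih (by omega)).trans (h (y + j) (by omega))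

lemma inc_step {R : ℕ} {ℓ : ℕ → ℕ}
    (h : ∀ y, 1 ≤ y → y + 2 < R → ℓ y + ℓ (y + 2) ≤ 2 * ℓ (y + 1)) (y : ℕ) (hy : 1 ≤ y) :
    ∀ j, y + j + 1 < R → (ℓ (y + j + 1) : ℤ) - ℓ (y + j) ≤ ℓ (y + 1) - ℓ y := by
  intro j
  induction j with
  | zero => intro _; exact le_rfl
  | succ j ih =>
    intro hj
    have h1 := ih (by omega)
    have h2 := h (y + j) (by omega) (by omega)
    have e1 : y + (j + 1) + 1 = y + j + 2 := by omega
    have e2 : y + (j + 1) = y + j + 1 := by omega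
    rw [e1, e2]
    have h3 : (ℓ (y + j) : ℤ) + ℓ (y + j + 2) ≤ 2 * ℓ (y + j + 1) := by exact_mod_cast h2
    linarith

lemma lin_step {R : ℕ} {ℓ : ℕ → ℕ}
    (h : ∀ y, 1 ≤ y → y + 2 < R → ℓ y + ℓ (y + 2) ≤ 2 * ℓ (y + 1)) (y : ℕ) (hy : 1 ≤ y) :
    ∀ j : ℕ, y + j < R → (ℓ (y + j) : ℤ) ≤ ℓ y + j * ((ℓ (y + 1) : ℤ) - ℓ y) := by
  intro j
  induction j with
  | zero => intro _; simp
  | succ j ih =>
    intro hj
    have h1 := ih (by omega)
    have h2 := inc_step h y hy j (by omega)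
    have e1 : y + (j + 1) = y + j + 1 := by omega
    rw [e1]
    push_cast
    linarith

theorem goalT3 : GoalT3 := by
  intro M R ℓ hM hR1 hR2 hmono hconc h0 hsum
  -- the last row
  have hE1 : ∑ y ∈ range R, ℓ y ≤ R * ℓ (R - 1) := by
    calc ∑ y ∈ range R, ℓ y ≤ ∑ _y ∈ range R, ℓ (R - 1) := by
          refine Finset.sum_le_sum fun y hy => ?_
          have hy' := Finset.mem_range.1 hy
          have h1 := mono_step hmono y (R - 1 - y) (by omega)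
          have e1 : y + (R - 1 - y) = R - 1 := by omega
          rwa [e1] at h1
      _ = R * ℓ (R - 1) := by rw [Finset.sum_const, Finset.card_range, smul_eq_mul]
  have hE : 54 * M ^ 2 ≤ ℓ (R - 1) := by
    by_contra hlt
    push Not at hlt
    have h1 : R * ℓ (R - 1) < R * (54 * M ^ 2) := Nat.mul_lt_mul_of_pos_left hlt (by omega)
    have h2 : R * (54 * M ^ 2) ≤ (4 * M + 2) * (54 * M ^ 2) := Nat.mul_le_mul_right _ hR2
    have h3 : (4 * M + 2) * (54 * M ^ 2) = 216 * M ^ 3 + 108 * M ^ 2 := by ring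
    omega
  have hEz : 54 * (M : ℤ) ^ 2 ≤ ℓ (R - 1) := by exact_mod_cast hE
  have hMz : (2 : ℤ) ≤ M := by exact_mod_cast hM
  have hR1z : 2 * (M : ℤ) + 2 ≤ R := by exact_mod_cast hR1
  have hR2z : (R : ℤ) ≤ 4 * M + 2 := by exact_mod_cast hR2
  -- the basic inequality
  have hbase : ∀ y, 1 ≤ y → y + 1 < R →
      (ℓ (R - 1) : ℤ) ≤ ℓ y + ((R : ℤ) - 1 - y) * ((ℓ (y + 1) : ℤ) - ℓ y) := by
    intro y hy hyR
    have h1 := lin_step hconc y hy (R - 1 - y) (by omega)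
    have e1 : y + (R - 1 - y) = R - 1 := by omega
    have e2 : ((R - 1 - y : ℕ) : ℤ) = (R : ℤ) - 1 - y := by omega
    rw [e1, e2] at h1
    exact h1
  refine ⟨?_, ?_, ?_⟩
  · intro y hy
    have hΔ : (0 : ℤ) ≤ (ℓ (y + 1) : ℤ) - ℓ y := by
      have := hmono y hy
      have h1 : (ℓ y : ℤ) ≤ ℓ (y + 1) := by exact_mod_cast this
      linarith
    have hl0 : (0 : ℤ) ≤ ℓ y := Int.natCast_nonneg _
    suffices h : 3 * (M : ℤ) ^ 2 ≤ M * ((ℓ (y + 1) : ℤ) - ℓ y) + ℓ y by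
      have h1 : (M : ℤ) * ℓ y + 3 * M ^ 2 ≤ M * ℓ (y + 1) + ℓ y := by linarith
      exact_mod_cast h1
    rcases Nat.eq_zero_or_pos y with hy0 | hy1
    · subst hy0
      obtain ⟨a, ha⟩ : ∃ a : ℤ, a = (ℓ (0 + 1) : ℤ) - ℓ 0 := ⟨_, rfl⟩
      rw [← ha] at hΔ ⊢
      have h1 := hbase 1 le_rfl (by omega)
      have h0z : (ℓ 2 : ℤ) + 2 * ℓ 0 ≤ 3 * ℓ 1 + 2 := by exact_mod_cast h0
      have ha1 : (ℓ 1 : ℤ) = ℓ 0 + a := by
        rw [ha]; simp
      have h2 : (ℓ (1 + 1) : ℤ) - ℓ 1 ≤ 2 * a + 2 := by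
        show (ℓ 2 : ℤ) - ℓ 1 ≤ 2 * a + 2
        linarith
      have h3 : (ℓ (R - 1) : ℤ) ≤ ℓ 0 + a + ((R : ℤ) - 2) * (2 * a + 2) := by
        have h4 : ((R : ℤ) - 1 - (1 : ℕ)) * ((ℓ (1 + 1) : ℤ) - ℓ 1) ≤
            ((R : ℤ) - 1 - (1 : ℕ)) * (2 * a + 2) := by
          refine mul_le_mul_of_nonneg_left h2 ?_
          push_cast
          linarith
        push_cast at h1 h4
        rw [ha1] at h1
        have e : ((R : ℤ) - 1 - 1) = R - 2 := by ring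
        rw [e] at h1 h4
        rw [ha1] at h4
        linarith
      -- multiply by `M`
      have hM0 : (0 : ℤ) ≤ M := by linarith
      have h5 : (M : ℤ) * (54 * M ^ 2 - 2 * (4 * M)) ≤ M * (ℓ 0 + (2 * R - 3) * a) := by
        refine mul_le_mul_of_nonneg_left ?_ hM0
        have h6 : ((R : ℤ) - 2) * (2 * a + 2) = (2 * R - 4) * a + (2 * R - 4) := by ring
        have h7 : (2 * (R : ℤ) - 4) * a + a = (2 * R - 3) * a := by ring
        linarith
      by_contra hlt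
      push Not at hlt
      have hR3 : (0 : ℤ) < 2 * R - 3 := by linarith
      have h8 : (2 * (R : ℤ) - 3) * (M * a + ℓ 0) < (2 * R - 3) * (3 * M ^ 2) :=
        mul_lt_mul_of_pos_left hlt hR3
      have h9 : (M : ℤ) * ℓ 0 ≤ (2 * R - 3) * ℓ 0 := mul_le_mul_of_nonneg_right (by linarith) hl0
      have h10 : (2 * (R : ℤ) - 3) * (3 * M ^ 2) ≤ (8 * M + 1) * (3 * M ^ 2) :=
        mul_le_mul_of_nonneg_right (by linarith) (by positivity)
      have h11 : (2 * (M : ℤ) ^ 2) ≤ M ^ 3 := by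
        have : (M : ℤ) ^ 3 = M * M ^ 2 := by ring
        rw [this]
        exact mul_le_mul_of_nonneg_right hMz (by positivity)
      have h12 : (0 : ℤ) ≤ (M : ℤ) ^ 2 := by positivity
      have e1 : (M : ℤ) * (54 * M ^ 2 - 2 * (4 * M)) = 54 * M ^ 3 - 8 * M ^ 2 := by ring
      have e2 : (M : ℤ) * (ℓ 0 + (2 * R - 3) * a) = M * ℓ 0 + (2 * R - 3) * (M * a) := by ring
      have e3 : (2 * (R : ℤ) - 3) * (M * a + ℓ 0) = (2 * R - 3) * (M * a) + (2 * R - 3) * ℓ 0 := by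
        ring
      have e4 : (8 * (M : ℤ) + 1) * (3 * M ^ 2) = 24 * M ^ 3 + 3 * M ^ 2 := by ring
      rw [e1, e2] at h5
      rw [e3] at h8
      rw [e4] at h10
      linarith
    · have h1 := hbase y hy1 hy
      obtain ⟨D, hD⟩ : ∃ D : ℤ, D = (ℓ (y + 1) : ℤ) - ℓ y := ⟨_, rfl⟩
      rw [← hD] at hΔ h1 ⊢
      by_contra hlt
      push Not at hlt
      have hR3 : (0 : ℤ) < R - 1 := by linarith
      have h8 : ((R : ℤ) - 1) * (M * D + ℓ y) < (R - 1) * (3 * M ^ 2) :=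
        mul_lt_mul_of_pos_left hlt hR3
      have hM0 : (0 : ℤ) ≤ M := by linarith
      have h5 : (M : ℤ) * (54 * M ^ 2) ≤ M * (ℓ y + ((R : ℤ) - 1 - y) * D) :=
        mul_le_mul_of_nonneg_left (hEz.trans h1) hM0
      have h9 : (M : ℤ) * ℓ y ≤ (R - 1) * ℓ y := mul_le_mul_of_nonneg_right (by linarith) hl0
      have hyz : (0 : ℤ) ≤ y := Int.natCast_nonneg _
      have h6 : (0 : ℤ) ≤ y * (M * D) := mul_nonneg hyz (mul_nonneg hM0 hΔ)
      have h10 : ((R : ℤ) - 1) * (3 * M ^ 2) ≤ (4 * M + 1) * (3 * M ^ 2) :=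
        mul_le_mul_of_nonneg_right (by linarith) (by positivity)
      have h11 : (2 * (M : ℤ) ^ 2) ≤ M ^ 3 := by
        have : (M : ℤ) ^ 3 = M * M ^ 2 := by ring
        rw [this]
        exact mul_le_mul_of_nonneg_right hMz (by positivity)
      have h12 : (0 : ℤ) ≤ (M : ℤ) ^ 2 := by positivity
      have e1 : (M : ℤ) * (54 * M ^ 2) = 54 * M ^ 3 := by ring
      have e2 : (M : ℤ) * (ℓ y + ((R : ℤ) - 1 - y) * D) =
          M * ℓ y + (R - 1) * (M * D) - y * (M * D) := by ring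
      have e3 : ((R : ℤ) - 1) * (M * D + ℓ y) = (R - 1) * (M * D) + (R - 1) * ℓ y := by ring
      have e4 : (4 * (M : ℤ) + 1) * (3 * M ^ 2) = 12 * M ^ 3 + 3 * M ^ 2 := by ring
      rw [e1, e2] at h5
      rw [e3] at h8
      rw [e4] at h10
      linarith
  · intro y hy hyR
    have hy1 : 1 ≤ y := by omega
    have hΔ : (0 : ℤ) ≤ (ℓ (y + 1) : ℤ) - ℓ y := by
      have := hmono y hy
      have h1 : (ℓ y : ℤ) ≤ ℓ (y + 1) := by exact_mod_cast this
      linarith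
    have hl0 : (0 : ℤ) ≤ ℓ y := Int.natCast_nonneg _
    have h1 := hbase y hy1 hy
    have hyz : (R : ℤ) - 1 - y ≤ 2 * M := by
      have : (R : ℤ) ≤ y + 2 * M + 1 := by exact_mod_cast hyR
      linarith
    have h2 : ((R : ℤ) - 1 - y) * ((ℓ (y + 1) : ℤ) - ℓ y) ≤ 2 * M * ((ℓ (y + 1) : ℤ) - ℓ y) :=
      mul_le_mul_of_nonneg_right hyz hΔ
    have h3 : (M : ℤ) * ℓ y + 27 * M ^ 2 ≤ M * ℓ (y + 1) + ℓ y := by
      have e1 : 2 * (M : ℤ) * ((ℓ (y + 1) : ℤ) - ℓ y) = 2 * (M * ℓ (y + 1)) - 2 * (M * ℓ y) := by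
        ring
      rw [e1] at h2
      linarith
    exact_mod_cast h3
  · intro y hy hyR
    exact hconc y (by omega) hy

end Pool.Agent.Helper13.SG
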